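import Pool.Agent.Lib_helper13.SteklovGeom

/-!
# (P4) and (P5) are not determined by the Steklov spectrum

On the compact `4`-manifold with boundary `Ω = [0,1] × 𝕋³` (coordinates `r, x, z₁, z₂`) let
`s(r) = r(1-r)` and `A(x) = [[cos x, sin x], [sin x, -cos x]]`.  The metrics

* `g₁ = dr² + dx² + ⟨dz, exp(-s(r) A(x)) dz⟩`,
* `g₂ = (cosh s(r) + sinh s(r) cos x) (dr² + dx²) + |dz|²`

are Steklov isospectral and agree on the boundary (a pair of isometric flat tori), but `g₁` has
constant principal curvatures `-1/2, 0, 1/2` (so constant mean curvature `0`), while the mean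
curvature of the boundary for `g₂` is `-(cos x)/2`.

The definitions are in `Pool/Agent/Lib_helper13/SteklovDefs.lean`.
-/

namespace Pool.Agent.Results.MP_159441_gt.MeanCurvatureInaudible

open Steklov

/-- There are two Steklov isospectral Riemannian metrics on the compact `4`-manifold with
boundary `[0,1] × 𝕋³`, equal to each other at every boundary point, such that the first one has
(P4) and (P5) while the second one has neither (P4) nor (P5). -/
theorem result : ∃ m₁ m₂ : Metric 3,
    Isospectral m₁ m₂ ∧
    (∀ p ∈ bdry 3, m₁.g p = m₂.g p) ∧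
    m₁.ConstPrincipalCurvatures ∧ m₁.ConstMeanCurvature ∧
    ¬ m₂.ConstMeanCurvature ∧ ¬ m₂.ConstPrincipalCurvatures :=
  ⟨M1, M2, isospectral, fun _ hp => (G1_bdry hp).trans (G2_bdry hp).symm,
    M1_constPrincipal, M1_constMean, M2_not_constMean, M2_not_constPrincipal⟩

end Pool.Agent.Results.MP_159441_gt.MeanCurvatureInaudible
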